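import Mathlib
import Pool.Agent.Lib.Pfab339.Realize

set_option autoImplicit false
set_option linter.unusedSectionVars false

namespace Pool.Agent.Results.MP_fab339_co.MaxPermanentND

open Finset

/-- all entries are 0 or 1 -/
def ZeroOne {n : ℕ} (A : Matrix (Fin n) (Fin n) ℕ) : Prop := ∀ i j, A i j = 0 ∨ A i j = 1

/-- Fully indecomposable: for `n = 1` this means `A = [1]`; otherwise there is no zero submatrix
with `s ≥ 1` rows and `t ≥ 1` columns such that `s + t = n`. -/
def FullyIndecomposable {n : ℕ} (A : Matrix (Fin n) (Fin n) ℕ) : Prop :=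
  if n = 1 then ∀ i j, A i j = 1
  else ¬ ∃ S T : Finset (Fin n), S.Nonempty ∧ T.Nonempty ∧ S.card + T.card = n ∧
    ∀ i ∈ S, ∀ j ∈ T, A i j = 0

/-- the matrix obtained from `A` by replacing the entry `(i, j)` by 0 -/
def zeroAt {n : ℕ} (A : Matrix (Fin n) (Fin n) ℕ) (i j : Fin n) : Matrix (Fin n) (Fin n) ℕ :=
  Matrix.of fun a b => if a = i ∧ b = j then 0 else A a b

/-- Nearly decomposable (0,1)-matrices -/
def NearlyDecomposable {n : ℕ} (A : Matrix (Fin n) (Fin n) ℕ) : Prop :=
  ZeroOne A ∧ FullyIndecomposable A ∧ ∀ i j, A i j = 1 → ¬ FullyIndecomposable (zeroAt A i j)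

/-- the values `M(1), ..., M(43)` -/
def values : List ℕ := [1, 2, 2, 3, 4, 5, 7, 10, 13, 17, 24, 33, 43, 58, 81, 109, 142, 195, 270,
  360, 471, 657, 891, 1189, 1584, 2187, 2943, 3927, 5328, 7290, 9720, 12970, 17739, 24057, 32103,
  43209, 59049, 79461, 106029, 143856, 196830, 262440, 350415]

/-- the function `M`: for `n ≤ 43` it is given by the table, and for `n ≥ 44`
`M(n) = 27 ^ ⌊(n - 33) / 11⌋ * M(33 + ((n - 33) mod 11))` -/
def M (n : ℕ) : ℕ :=
  if n ≤ 43 then values.getD (n - 1) 0
  else 27 ^ ((n - 33) / 11) * values.getD (33 + (n - 33) % 11 - 1) 0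

open Pool.Agent.Lib.Pfab339

theorem M_eq {n : ℕ} (h : 3 ≤ n) : M n = F n := by
  unfold M F
  by_cases h43 : n ≤ 43
  · rw [if_pos h43, if_pos (by omega)]
    have key : ∀ k ∈ List.range 41, values.getD (k + 3 - 1) 0 = tab.getD (k + 3) 0 := by
      decide +kernel
    have := key (n - 3) (List.mem_range.2 (by omega))
    have e : n - 3 + 3 = n := by omega
    rwa [e] at this
  · rw [if_neg h43, if_neg (by omega)]
    have key : ∀ k ∈ List.range 11, values.getD (33 + k - 1) 0 = tab.getD (33 + k) 0 := by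
      decide +kernel
    rw [key ((n - 33) % 11) (List.mem_range.2 (Nat.mod_lt _ (by norm_num)))]

/-- shrinking a block to the exact size -/
theorem shrink {n : ℕ} (hn : 2 ≤ n) {S T : Finset (Fin n)} (hS : S.Nonempty) (hT : T.Nonempty)
    (h : n ≤ S.card + T.card) : ∃ S' T' : Finset (Fin n), S' ⊆ S ∧ T' ⊆ T ∧ S'.Nonempty ∧
      T'.Nonempty ∧ S'.card + T'.card = n := by
  have hSp := Finset.card_pos.2 hS
  have hTp := Finset.card_pos.2 hT
  by_cases hTn : T.card ≤ n - 1
  · obtain ⟨S', hS', hc⟩ := Finset.exists_subset_card_eq (s := S) (n := n - T.card) (by omega)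
    exact ⟨S', T, hS', Finset.Subset.refl _, Finset.card_pos.1 (by omega), hT, by omega⟩
  · obtain ⟨T', hT', hc⟩ := Finset.exists_subset_card_eq (s := T) (n := n - 1) (by omega)
    obtain ⟨S', hS', hc'⟩ := Finset.exists_subset_card_eq (s := S) (n := 1) (by omega)
    exact ⟨S', T', hS', hT', Finset.card_pos.1 (by omega), Finset.card_pos.1 (by omega), by omega⟩

/-- the structure attached to a matrix -/
def toE {n : ℕ} (A : Matrix (Fin n) (Fin n) ℕ) : Fin n → Fin n → Ent :=
  fun i j => if A i j = 0 then Ent.zero else Ent.free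

theorem toE_free {n : ℕ} {A : Matrix (Fin n) (Fin n) ℕ} {i j : Fin n} (h : toE A i j = Ent.free) :
    A i j ≠ 0 := by
  intro h0
  unfold toE at h
  rw [if_pos h0] at h
  have := congrArg Ent.x h
  simp at this

theorem toE_x {n : ℕ} {A : Matrix (Fin n) (Fin n) ℕ} {i j : Fin n} (h : 1 ≤ (toE A i j).x) :
    A i j ≠ 0 := by
  intro h0
  unfold toE at h
  rw [if_pos h0] at h
  simp at h

theorem fi_toE {n : ℕ} (hn : 2 ≤ n) {A : Matrix (Fin n) (Fin n) ℕ} (h : FullyIndecomposable A) :
    FI univ univ (toE A) := by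
  intro S T _ _ hS hT hz
  by_contra hcon
  rw [Finset.card_univ, Fintype.card_fin] at hcon
  obtain ⟨S', T', hS', hT', hSn, hTn, hc⟩ := shrink hn hS hT (by omega)
  unfold FullyIndecomposable at h
  rw [if_neg (by omega)] at h
  apply h
  refine ⟨S', T', hSn, hTn, hc, fun i hi j hj => ?_⟩
  by_contra hne
  have := hz i (hS' hi) j (hT' hj)
  unfold toE at this
  rw [if_neg hne] at this
  simp at this

theorem good_toE {n : ℕ} (hn : 3 ≤ n) {A : Matrix (Fin n) (Fin n) ℕ} (h : NearlyDecomposable A) :
    Good univ univ (toE A) := by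
  obtain ⟨h01, hfi, hnd⟩ := h
  have hFI := fi_toE (by omega) hfi
  have hprot : ∀ i ∈ (univ : Finset (Fin n)), ∀ j ∈ (univ : Finset (Fin n)),
      toE A i j = Ent.free → ∃ S T, Blk univ univ (toE A) i j S T := by
    intro i _ j _ hf
    have hA := toE_free hf
    have h1 := hnd i j ((h01 i j).resolve_left hA)
    unfold FullyIndecomposable at h1 hfi
    rw [if_neg (by omega)] at h1 hfi
    rw [not_not] at h1
    obtain ⟨S, T, hS, hT, hc, hz⟩ := h1
    have hmem : i ∈ S ∧ j ∈ T := by
      by_contra hcon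
      apply hfi
      refine ⟨S, T, hS, hT, hc, fun a ha b hb => ?_⟩
      have h2 := hz a ha b hb
      have hne : ¬ (a = i ∧ b = j) := fun e => hcon ⟨e.1 ▸ ha, e.2 ▸ hb⟩
      rwa [zeroAt, Matrix.of_apply, if_neg hne] at h2
    refine ⟨S, T, Finset.subset_univ _, Finset.subset_univ _, hmem.1, hmem.2, ?_, ?_⟩
    · rw [Finset.card_univ, Fintype.card_fin, hc]
    · intro a ha b hb hx
      by_contra hne
      have h2 := hz a ha b hb
      rw [zeroAt, Matrix.of_apply, if_neg hne] at h2
      exact toE_x hx h2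
  refine ⟨rfl, ?_, hprot, ?_⟩
  · intro i _ j _
    unfold toE
    split_ifs
    · exact Or.inr TT.base
    · exact Or.inl rfl
  · intro i _ i' _ j _ j' _ hii hjj h1 h2 h3 h4
    have := card_two_of_c4 rfl hFI hprot (Finset.mem_univ i) (Finset.mem_univ i')
      (Finset.mem_univ j) (Finset.mem_univ j') hii hjj h1 h2 h3 h4
    rw [Finset.card_univ, Fintype.card_fin] at this
    omega

theorem val_toE {n : ℕ} {A : Matrix (Fin n) (Fin n) ℕ} (h : ZeroOne A) :
    Pool.Agent.Lib.Pfab339.val univ univ (toE A) = A.permanent := by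
  unfold Pool.Agent.Lib.Pfab339.val
  have hY : Yv univ univ (toE A) = 1 := by
    unfold Yv agg
    refine Finset.prod_eq_one (fun i _ => Finset.prod_eq_one (fun j _ => ?_))
    unfold toE
    split_ifs <;> simp
  rw [hY, one_mul, permanent_eq,
    per_reindex (Equiv.subtypeUnivEquiv (fun x => Finset.mem_univ x)).symm
      (Equiv.subtypeUnivEquiv (fun x => Finset.mem_univ x)).symm]
  push_cast
  refine Finset.sum_congr rfl (fun σ _ => Finset.prod_congr rfl (fun i _ => ?_))
  show wt (toE A i (σ i)) = (A i (σ i) : ℚ)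
  unfold toE
  rcases h i (σ i) with h0 | h1
  · rw [if_pos h0, h0]; simp
  · rw [if_neg (by omega), h1]; simp

theorem ord_toE {n : ℕ} (A : Matrix (Fin n) (Fin n) ℕ) : ord univ univ (toE A) = n := by
  unfold ord
  rw [Nv_eq, Finset.card_univ, Fintype.card_fin]
  have : ∑ i : Fin n, ∑ j : Fin n, (toE A i j).n = 0 := by
    refine Finset.sum_eq_zero (fun i _ => Finset.sum_eq_zero (fun j _ => ?_))
    unfold toE
    split_ifs <;> simp
  rw [this, add_zero]

theorem upper {n : ℕ} (hn : 3 ≤ n) {A : Matrix (Fin n) (Fin n) ℕ} (h : NearlyDecomposable A) :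
    A.permanent ≤ M n := by
  have h1 := val_le F_prop (good_toE hn h)
  rw [val_toE h.1, ord_toE, ← M_eq hn] at h1
  exact_mod_cast h1

theorem lower {n : ℕ} (hn : 3 ≤ n) :
    ∃ A : Matrix (Fin n) (Fin n) ℕ, NearlyDecomposable A ∧ A.permanent = M n := by
  obtain ⟨R, C, E, hS, hN, hval, hord⟩ := realize_root (root_F hn)
  have hRn : R.card = n := by
    unfold ord at hord; omega
  have hCn : C.card = n := by rw [← hS.card, hRn]
  let f : Fin n ≃ R := (Fintype.equivFinOfCardEq (by simpa using hRn)).symm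
  let g : Fin n ≃ C := (Fintype.equivFinOfCardEq (by simpa using hCn)).symm
  have hn0 : ∀ i ∈ R, ∀ j ∈ C, (E i j).n = 0 := by
    intro i hi j hj
    rw [Nv_eq] at hN
    have h1 := (Finset.sum_eq_zero_iff.1 hN) i hi
    exact (Finset.sum_eq_zero_iff.1 h1) j hj
  have hzf : ∀ i ∈ R, ∀ j ∈ C, E i j = Ent.zero ∨ E i j = Ent.free := by
    intro i hi j hj
    by_cases hx : (E i j).x = 0
    · left; exact (hS.kind i hi j hj).zero_of_x hx
    · rcases (hS.kind i hi j hj).free_or_cost (by omega) with h | h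
      · right; exact h
      · have := hn0 i hi j hj
        omega
  let A : Matrix (Fin n) (Fin n) ℕ := Matrix.of fun i j => (E (f i) (g j)).x
  have hA : ∀ i j, A i j = (E (f i) (g j)).x := fun i j => rfl
  have h01 : ZeroOne A := by
    intro i j
    rcases hzf (f i) (f i).2 (g j) (g j).2 with h | h
    · left; rw [hA, h]; rfl
    · right; rw [hA, h]; rfl
  -- transport of blocks
  have cardf : ∀ S : Finset (Fin n), (S.map (f.toEmbedding.trans (Function.Embedding.subtype _))).card
      = S.card := fun S => Finset.card_map _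
  have hfi : FullyIndecomposable A := by
    unfold FullyIndecomposable
    rw [if_neg (by omega)]
    rintro ⟨S, T, hSn, hTn, hc, hz⟩
    have := hS.fi (S.map (f.toEmbedding.trans (Function.Embedding.subtype _)))
      (T.map (g.toEmbedding.trans (Function.Embedding.subtype _))) (by
        intro a ha
        obtain ⟨s, _, rfl⟩ := Finset.mem_map.1 ha
        exact (f s).2) (by
        intro a ha
        obtain ⟨s, _, rfl⟩ := Finset.mem_map.1 ha
        exact (g s).2) (hSn.map) (hTn.map) (by
        intro a ha b hb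
        obtain ⟨s, hs, rfl⟩ := Finset.mem_map.1 ha
        obtain ⟨t, ht, rfl⟩ := Finset.mem_map.1 hb
        exact hz s hs t ht)
    rw [Finset.card_map, Finset.card_map] at this
    omega
  have hnd : ∀ i j, A i j = 1 → ¬ FullyIndecomposable (zeroAt A i j) := by
    intro i j hij hcon
    have hf : E (f i) (g j) = Ent.free := by
      rcases hzf (f i) (f i).2 (g j) (g j).2 with h | h
      · rw [hA, h] at hij; simp at hij
      · exact h
    obtain ⟨S, T, hb⟩ := hS.prot (f i) (f i).2 (g j) (g j).2 hf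
    let S' : Finset (Fin n) := univ.filter (fun a => (f a : ℕ) ∈ S)
    let T' : Finset (Fin n) := univ.filter (fun a => (g a : ℕ) ∈ T)
    have hS'c : S'.card = S.card := by
      have : S'.map (f.toEmbedding.trans (Function.Embedding.subtype _)) = S := by
        ext x
        constructor
        · intro hx
          obtain ⟨s, hs, rfl⟩ := Finset.mem_map.1 hx
          exact (Finset.mem_filter.1 hs).2
        · intro hx
          refine Finset.mem_map.2 ⟨f.symm ⟨x, hb.subR hx⟩, ?_, ?_⟩
          · refine Finset.mem_filter.2 ⟨Finset.mem_univ _, ?_⟩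
            simpa using hx
          · simp
      rw [← this, Finset.card_map]
    have hT'c : T'.card = T.card := by
      have : T'.map (g.toEmbedding.trans (Function.Embedding.subtype _)) = T := by
        ext x
        constructor
        · intro hx
          obtain ⟨s, hs, rfl⟩ := Finset.mem_map.1 hx
          exact (Finset.mem_filter.1 hs).2
        · intro hx
          refine Finset.mem_map.2 ⟨g.symm ⟨x, hb.subC hx⟩, ?_, ?_⟩
          · refine Finset.mem_filter.2 ⟨Finset.mem_univ _, ?_⟩
            simpa using hx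
          · simp
      rw [← this, Finset.card_map]
    have hiS : i ∈ S' := Finset.mem_filter.2 ⟨Finset.mem_univ _, hb.memS⟩
    have hjT : j ∈ T' := Finset.mem_filter.2 ⟨Finset.mem_univ _, hb.memT⟩
    have hbc := hb.card
    obtain ⟨S2, T2, hS2, hT2, hS2n, hT2n, hc2⟩ := shrink (n := n) (by omega) ⟨i, hiS⟩ ⟨j, hjT⟩
      (by omega)
    unfold FullyIndecomposable at hcon
    rw [if_neg (by omega)] at hcon
    apply hcon
    refine ⟨S2, T2, hS2n, hT2n, hc2, fun a ha b hb' => ?_⟩
    rw [zeroAt, Matrix.of_apply]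
    split_ifs with hab
    · rfl
    · by_contra hne
      have h1 := hb.zero (f a) (Finset.mem_filter.1 (hS2 ha)).2 (g b)
        (Finset.mem_filter.1 (hT2 hb')).2 (by
          rw [hA] at hne; omega)
      apply hab
      exact ⟨f.injective (Subtype.ext h1.1), g.injective (Subtype.ext h1.2)⟩
  refine ⟨A, ⟨h01, hfi, hnd⟩, ?_⟩
  have hperm : (A.permanent : ℚ) = Pool.Agent.Lib.Pfab339.val R C E := by
    unfold Pool.Agent.Lib.Pfab339.val
    have hY : Yv R C E = 1 := by
      unfold Yv agg
      refine Finset.prod_eq_one (fun i hi => Finset.prod_eq_one (fun j hj => ?_))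
      rcases hzf i hi j hj with h | h <;> rw [h] <;> simp
    rw [hY, one_mul, permanent_eq, per_reindex f g]
    push_cast
    refine Finset.sum_congr rfl (fun σ _ => Finset.prod_congr rfl (fun i _ => ?_))
    rw [hA]
    rcases hzf (f i) (f i).2 (g (σ i)) (g (σ i)).2 with h | h <;> rw [h] <;> simp
  rw [hval, ← M_eq hn] at hperm
  exact_mod_cast hperm

theorem one_case : IsGreatest {p : ℕ | ∃ A : Matrix (Fin 1) (Fin 1) ℕ,
    NearlyDecomposable A ∧ A.permanent = p} (M 1) := by
  constructor
  · refine ⟨Matrix.of fun _ _ => 1, ⟨fun _ _ => Or.inr rfl, ?_, ?_⟩, ?_⟩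
    · unfold FullyIndecomposable; simp
    · intro i j _ hcon
      unfold FullyIndecomposable at hcon
      rw [if_pos rfl] at hcon
      have := hcon i j
      simp [zeroAt] at this
    · rw [permanent_eq]; simp [M, values]
  · rintro p ⟨A, ⟨_, hfi, _⟩, rfl⟩
    unfold FullyIndecomposable at hfi
    rw [if_pos rfl] at hfi
    rw [permanent_eq]
    simp [hfi, M, values]

theorem two_case : IsGreatest {p : ℕ | ∃ A : Matrix (Fin 2) (Fin 2) ℕ,
    NearlyDecomposable A ∧ A.permanent = p} (M 2) := by
  have hM : M 2 = 2 := rfl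
  rw [hM]
  constructor
  · refine ⟨Matrix.of fun _ _ => 1, ⟨fun _ _ => Or.inr rfl, ?_, ?_⟩, ?_⟩
    · unfold FullyIndecomposable
      rw [if_neg (by norm_num)]
      rintro ⟨S, T, ⟨a, ha⟩, ⟨b, hb⟩, _, hz⟩
      have := hz a ha b hb
      simp at this
    · intro i j _ hcon
      unfold FullyIndecomposable at hcon
      rw [if_neg (by norm_num)] at hcon
      apply hcon
      refine ⟨{i}, {j}, by simp, by simp, by simp, ?_⟩
      intro a ha b hb
      simp only [Finset.mem_singleton] at ha hb
      simp [zeroAt, ha, hb]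
    · rw [permanent_eq]
      simp [Fintype.card_perm]
  · rintro p ⟨A, ⟨h01, _, _⟩, rfl⟩
    rw [permanent_eq]
    calc ∑ σ : Equiv.Perm (Fin 2), ∏ i, A i (σ i) ≤ ∑ _σ : Equiv.Perm (Fin 2), 1 := by
          refine Finset.sum_le_sum (fun σ _ => ?_)
          refine Finset.prod_le_one (fun i _ => Nat.zero_le _) (fun i _ => ?_)
          rcases h01 i (σ i) with h | h <;> omega
      _ = 2 := by simp [Fintype.card_perm]

/-- The maximum permanent of an `n × n` nearly decomposable (0,1)-matrix is `M n`. -/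
theorem result : ∀ n : ℕ, 1 ≤ n →
    IsGreatest {p : ℕ | ∃ A : Matrix (Fin n) (Fin n) ℕ,
      NearlyDecomposable A ∧ A.permanent = p} (M n) := by
  intro n hn
  by_cases h1 : n = 1
  · subst h1; exact one_case
  by_cases h2 : n = 2
  · subst h2; exact two_case
  have h3 : 3 ≤ n := by omega
  constructor
  · exact lower h3
  · rintro p ⟨A, hA, rfl⟩
    exact upper h3 hA

end Pool.Agent.Results.MP_fab339_co.MaxPermanentND
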